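import Pool.Agent.T9h16.QL.Spec2

/-!
# The second moment at the threshold (piece (M) of QL)
-/

set_option autoImplicit false

namespace Pool.Agent.T9h84.QL

open Finset Pool.Agent.T9h16.QL

theorem two_choose (n : ℕ) : 2 * n.choose 2 = n * (n - 1) := by
  rw [Nat.choose_two_right, Nat.two_mul_div_two_of_even (Nat.even_mul_pred_self n)]

theorem choose_low (n k : ℕ) (h : 2 * k ≤ n) : n ^ k ≤ 2 ^ k * (k.factorial * n.choose k) := by
  rw [← Nat.descFactorial_eq_factorial_mul_choose]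
  calc n ^ k ≤ (2 * (n + 1 - k)) ^ k := Nat.pow_le_pow_left (by omega) _
    _ = 2 ^ k * (n + 1 - k) ^ k := by rw [mul_pow]
    _ ≤ 2 ^ k * n.descFactorial k := Nat.mul_le_mul_left _ (Nat.pow_sub_le_descFactorial n k)

theorem choose_high (n k j : ℕ) (hj : j ≤ k) :
    k.choose j * (n - k).choose (k - j) * n ^ j ≤ 2 ^ k * n ^ k := by
  have h1 : k.choose j ≤ 2 ^ k := Nat.choose_le_two_pow k j
  have h2 : (n - k).choose (k - j) ≤ n ^ (k - j) :=
    (Nat.choose_le_pow _ _).trans (Nat.pow_le_pow_left (Nat.sub_le _ _) _)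
  calc k.choose j * (n - k).choose (k - j) * n ^ j ≤ 2 ^ k * n ^ (k - j) * n ^ j := by gcongr
    _ = 2 ^ k * n ^ k := by rw [mul_assoc, ← pow_add, Nat.sub_add_cancel hj]

theorem expo (j k : ℕ) (hj1 : 1 ≤ j) (hjk : j < k) :
    j * (k * (k - 1)) = k * (j * (j - 1)) + j * k * (k - j) ∧ k * (k - 1) ≤ j * k * (k - j) ∧
      j * (j - 1) ≤ k * (k - 1) := by
  obtain ⟨a, rfl⟩ : ∃ a, j = a + 1 := ⟨j - 1, by omega⟩
  obtain ⟨b, rfl⟩ : ∃ b, k = a + 1 + (b + 1) := ⟨k - (a + 2), by omega⟩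
  have h1 : a + 1 + (b + 1) - 1 = a + b + 1 := by omega
  have h2 : a + 1 + (b + 1) - (a + 1) = b + 1 := by omega
  have h3 : a + 1 - 1 = a := by omega
  rw [h1, h2, h3]
  refine ⟨by ring, ?_, ?_⟩ <;> nlinarith [Nat.zero_le (a * b), Nat.zero_le (a * b * (a + b))]

theorem term_le {n k j : ℕ} {p : ℝ} (hp : 0 < p) (hj1 : 1 ≤ j) (hjk : j < k) (hk : 3 ≤ k)
    (hn : 2 * k ≤ n) (hM : 1 / 4 ≤ meanCl n k p) :
    ((k.choose j * (n - k).choose (k - j) : ℕ) : ℝ) * p ^ (k.choose 2 - j.choose 2) /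
      meanCl n k p * n ≤ 4 * (4 ^ k * (k.factorial : ℝ)) := by
  have hn0 : (0 : ℝ) < n := by
    have : 0 < n := by omega
    exact_mod_cast this
  have hc0 : (0 : ℝ) < n.choose k := by
    have : 0 < n.choose k := Nat.choose_pos (by omega)
    exact_mod_cast this
  obtain ⟨e, he⟩ : ∃ e, e = k.choose 2 := ⟨_, rfl⟩
  obtain ⟨f, hf⟩ : ∃ f, f = j.choose 2 := ⟨_, rfl⟩
  obtain ⟨E, hE⟩ : ∃ E, E = k * (k - 1) := ⟨_, rfl⟩
  obtain ⟨F, hF⟩ : ∃ F, F = j * (j - 1) := ⟨_, rfl⟩
  have h2e : 2 * e = E := by rw [he, hE, two_choose]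
  have h2f : 2 * f = F := by rw [hf, hF, two_choose]
  have hfe : f ≤ e := by
    have := (expo j k hj1 hjk).2.2
    rw [← hE, ← hF] at this
    omega
  obtain ⟨t, ht⟩ : ∃ t, t = ((k.choose j * (n - k).choose (k - j) : ℕ) : ℝ) *
    p ^ (k.choose 2 - j.choose 2) / meanCl n k p := ⟨_, rfl⟩
  obtain ⟨C, hC⟩ : ∃ C : ℝ, C = 4 ^ k * (k.factorial : ℝ) := ⟨_, rfl⟩
  have hC0 : 0 ≤ C := by rw [hC]; positivity
  have hmc : meanCl n k p = n.choose k * p ^ e := by rw [he]; rfl
  have hM0 : 0 < meanCl n k p := lt_of_lt_of_le (by norm_num) hM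
  have ht0 : 0 ≤ t := by
    rw [ht]
    positivity
  -- t p^f n^j <= C
  have h1 : t * n ^ j * p ^ f ≤ C := by
    have h2 : t * p ^ f = ((k.choose j * (n - k).choose (k - j) : ℕ) : ℝ) / n.choose k := by
      rw [ht, hmc, ← he, ← hf]
      have h3 : p ^ (e - f) * p ^ f = p ^ e := by rw [← pow_add, Nat.sub_add_cancel hfe]
      have hpe : p ^ e ≠ 0 := (pow_pos hp e).ne'
      rw [div_mul_eq_mul_div, mul_assoc, h3]
      field_simp
    have h4 : ((k.choose j * (n - k).choose (k - j) : ℕ) : ℝ) * n ^ j ≤ C * n.choose k := by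
      have h5 : k.choose j * (n - k).choose (k - j) * n ^ j ≤
          4 ^ k * (k.factorial * n.choose k) := by
        calc k.choose j * (n - k).choose (k - j) * n ^ j ≤ 2 ^ k * n ^ k := choose_high n k j hjk.le
          _ ≤ 2 ^ k * (2 ^ k * (k.factorial * n.choose k)) :=
            Nat.mul_le_mul_left _ (choose_low n k hn)
          _ = 4 ^ k * (k.factorial * n.choose k) := by
            rw [← mul_assoc, ← mul_pow]
            norm_num
      have h6 : ((k.choose j * (n - k).choose (k - j) * n ^ j : ℕ) : ℝ) ≤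
          ((4 ^ k * (k.factorial * n.choose k) : ℕ) : ℝ) := by exact_mod_cast h5
      rw [hC]
      push_cast at h6 ⊢
      linarith
    calc t * n ^ j * p ^ f = (t * p ^ f) * n ^ j := by ring
      _ = ((k.choose j * (n - k).choose (k - j) : ℕ) : ℝ) * n ^ j / n.choose k := by
        rw [h2]; ring
      _ ≤ C := by rw [div_le_iff₀ hc0]; exact h4
  have h2 : 1 ≤ 4 * (n : ℝ) ^ k * p ^ e := by
    have h3 : (n.choose k : ℝ) ≤ (n : ℝ) ^ k := by exact_mod_cast Nat.choose_le_pow n k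
    have h4 : (n.choose k : ℝ) * p ^ e ≤ (n : ℝ) ^ k * p ^ e :=
      mul_le_mul_of_nonneg_right h3 (pow_nonneg hp.le e)
    rw [hmc] at hM
    linarith
  have hexp : f * E = e * F := by rw [← h2e, ← h2f]; ring
  have h3 : (t * n ^ j) ^ E ≤ C ^ E * (4 * (n : ℝ) ^ k) ^ F := by
    calc (t * n ^ j) ^ E = (t * n ^ j) ^ E * 1 := (mul_one _).symm
      _ ≤ (t * n ^ j) ^ E * (4 * (n : ℝ) ^ k * p ^ e) ^ F :=
        mul_le_mul_of_nonneg_left (one_le_pow₀ h2) (by positivity)
      _ = (t * n ^ j * p ^ f) ^ E * (4 * (n : ℝ) ^ k) ^ F := by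
        rw [mul_pow (4 * (n : ℝ) ^ k), mul_pow (t * n ^ j) (p ^ f), ← pow_mul, ← pow_mul, hexp]
        ring
      _ ≤ C ^ E * (4 * (n : ℝ) ^ k) ^ F := by
        have h5 : 0 ≤ t * n ^ j * p ^ f := by positivity
        exact mul_le_mul_of_nonneg_right (pow_le_pow_left₀ h5 h1 E) (by positivity)
  obtain ⟨hx1, hx2, hx3⟩ := expo j k hj1 hjk
  rw [← hE, ← hF] at hx1
  rw [← hE] at hx2
  rw [← hE, ← hF] at hx3
  obtain ⟨D, hD⟩ : ∃ D, D = j * k * (k - j) := ⟨_, rfl⟩
  rw [← hD] at hx1 hx2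
  have h4 : t ^ E * (n : ℝ) ^ D ≤ C ^ E * 4 ^ F := by
    have h5 : t ^ E * (n : ℝ) ^ D * (n : ℝ) ^ (k * F) ≤ C ^ E * 4 ^ F * (n : ℝ) ^ (k * F) := by
      calc t ^ E * (n : ℝ) ^ D * (n : ℝ) ^ (k * F) = (t * n ^ j) ^ E := by
            rw [mul_pow, ← pow_mul, hx1, pow_add]
            ring
        _ ≤ C ^ E * (4 * (n : ℝ) ^ k) ^ F := h3
        _ = C ^ E * 4 ^ F * (n : ℝ) ^ (k * F) := by
            rw [mul_pow, ← pow_mul]
            ring
    exact le_of_mul_le_mul_right h5 (by positivity)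
  have hn1 : (1 : ℝ) ≤ n := by
    have : 1 ≤ n := by omega
    exact_mod_cast this
  have h5 : (t * n) ^ E ≤ (4 * C) ^ E := by
    calc (t * n) ^ E = t ^ E * (n : ℝ) ^ E := mul_pow _ _ _
      _ ≤ t ^ E * (n : ℝ) ^ D :=
        mul_le_mul_of_nonneg_left (pow_le_pow_right₀ hn1 hx2) (by positivity)
      _ ≤ C ^ E * 4 ^ F := h4
      _ ≤ C ^ E * 4 ^ E :=
        mul_le_mul_of_nonneg_left (pow_le_pow_right₀ (by norm_num) hx3) (by positivity)
      _ = (4 * C) ^ E := by rw [mul_pow]; ring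
  have hE0 : E ≠ 0 := by
    rw [hE]
    have h6 : 0 < k * (k - 1) := Nat.mul_pos (by omega) (by omega)
    omega
  have h6 : t * n ≤ 4 * C := le_of_pow_le_pow_left₀ hE0 (by positivity) h5
  rw [← ht, ← hC]
  exact h6

theorem stThr : StThr := by
  intro k hk
  refine ⟨4 * (4 ^ k * k.factorial) * k, fun n a L hn ha haL hM1 hM2 => ?_⟩
  have hkf : 1 ≤ k.factorial := Nat.factorial_pos k
  have h4k : 1 ≤ 4 ^ k := Nat.one_le_pow _ _ (by norm_num)
  have h4kk : 4 * k ≤ 4 * (4 ^ k * k.factorial) * k := by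
    have : 1 ≤ 4 ^ k * k.factorial := Nat.one_le_iff_ne_zero.2 (by positivity)
    nlinarith
  have hn2 : 2 * k ≤ n := by omega
  have hn0 : (0 : ℝ) < n := by
    have : 0 < n := by omega
    exact_mod_cast this
  have ha0 : (0 : ℝ) < a := by exact_mod_cast ha
  have hL0 : (0 : ℝ) < L := by
    have : 0 < L := by omega
    exact_mod_cast this
  obtain ⟨p, hp⟩ : ∃ p : ℝ, p = (a : ℝ) / L := ⟨_, rfl⟩
  have hp0 : 0 < p := by rw [hp]; positivity
  rw [← hp] at hM1 hM2 ⊢
  have hk0 : (0 : ℝ) < k := by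
    have : 0 < k := by omega
    exact_mod_cast this
  have hM0 : 0 < meanCl n k p := lt_of_lt_of_le (by norm_num) hM1
  have hc0 : (0 : ℝ) < n.choose k := by
    have : 0 < n.choose k := Nat.choose_pos (by omega)
    exact_mod_cast this
  constructor
  · unfold ratio2
    rw [Finset.sum_range_succ]
    have hlast : ((k.choose k * (n - k).choose (k - k) : ℕ) : ℝ) *
        p ^ (k.choose 2 - k.choose 2) / meanCl n k p ≤ 4 := by
      rw [Nat.choose_self, Nat.sub_self, Nat.choose_zero_right, Nat.sub_self, pow_zero,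
        div_le_iff₀ hM0]
      push_cast
      linarith
    obtain ⟨k', rfl⟩ : ∃ k', k = k' + 1 := ⟨k - 1, by omega⟩
    rw [Finset.sum_range_succ']
    have hfirst : (((k' + 1).choose 0 * (n - (k' + 1)).choose (k' + 1 - 0) : ℕ) : ℝ) *
        p ^ ((k' + 1).choose 2 - Nat.choose 0 2) / meanCl n (k' + 1) p ≤ 1 := by
      rw [div_le_one hM0]
      unfold meanCl
      rw [Nat.choose_zero_right, one_mul]
      have h0 : Nat.choose 0 2 = 0 := rfl
      rw [h0, Nat.sub_zero, Nat.sub_zero]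
      apply mul_le_mul_of_nonneg_right _ (pow_nonneg hp0.le _)
      exact_mod_cast Nat.choose_le_choose _ (Nat.sub_le _ _)
    have hmid : ∑ j ∈ range k', (((k' + 1).choose (j + 1) *
        (n - (k' + 1)).choose (k' + 1 - (j + 1)) : ℕ) : ℝ) *
        p ^ ((k' + 1).choose 2 - (j + 1).choose 2) / meanCl n (k' + 1) p ≤ 1 := by
      have h1 : ∀ j ∈ range k', (((k' + 1).choose (j + 1) *
          (n - (k' + 1)).choose (k' + 1 - (j + 1)) : ℕ) : ℝ) *
          p ^ ((k' + 1).choose 2 - (j + 1).choose 2) / meanCl n (k' + 1) p ≤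
          1 / ((k' + 1 : ℕ) : ℝ) := by
        intro j hj
        have hj' := Finset.mem_range.1 hj
        have h2 := term_le (n := n) (k := k' + 1) (j := j + 1) hp0 (by omega) (by omega) hk hn2 hM1
        have h3 : 4 * (4 ^ (k' + 1) * ((k' + 1).factorial : ℝ)) * ((k' + 1 : ℕ) : ℝ) ≤ n := by
          exact_mod_cast hn
        rw [le_div_iff₀ hk0]
        rw [← le_div_iff₀ hn0] at h2
        calc _ ≤ 4 * (4 ^ (k' + 1) * ((k' + 1).factorial : ℝ)) / n * ((k' + 1 : ℕ) : ℝ) :=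
              mul_le_mul_of_nonneg_right h2 hk0.le
          _ = 4 * (4 ^ (k' + 1) * ((k' + 1).factorial : ℝ)) * ((k' + 1 : ℕ) : ℝ) / n := by ring
          _ ≤ 1 := by rw [div_le_one hn0]; exact h3
      refine (Finset.sum_le_sum h1).trans ?_
      rw [Finset.sum_const, Finset.card_range, nsmul_eq_mul, mul_one_div, div_le_one hk0]
      push_cast
      linarith
    linarith
  · have h2k : (2 : ℝ) ^ (k + 1) ≤ n := by
      have h1 : 2 ^ (k + 1) ≤ n := by
        calc 2 ^ (k + 1) = 2 * 2 ^ k := by ring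
          _ ≤ 4 * 4 ^ k := Nat.mul_le_mul (by norm_num) (Nat.pow_le_pow_left (by norm_num) _)
          _ ≤ 4 * (4 ^ k * k.factorial) * k := by
            have h2 : 4 ^ k ≤ 4 ^ k * k.factorial := Nat.le_mul_of_pos_right _ hkf
            have h3 : 4 * (4 ^ k * k.factorial) ≤ 4 * (4 ^ k * k.factorial) * k :=
              Nat.le_mul_of_pos_right _ (by omega)
            omega
          _ ≤ n := hn
      exact_mod_cast h1
    have hlogn : ((k : ℝ) + 1) * Real.log 2 ≤ Real.log n := by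
      have h1 := Real.log_le_log (by positivity) h2k
      rw [Real.log_pow] at h1
      push_cast at h1
      exact h1
    have hl2 : 0 < Real.log 2 := Real.log_pos (by norm_num)
    have h1 : Real.log (2 * L / a) = Real.log 2 - Real.log p := by
      have h2 : (2 : ℝ) * L / a = 2 / p := by
        rw [hp]
        field_simp
      rw [h2, Real.log_div (by norm_num) hp0.ne']
    have h2 : -(2 * Real.log 2) ≤ k * Real.log n + (k.choose 2 : ℝ) * Real.log p := by
      have h3 : (1 : ℝ) / 4 ≤ (n : ℝ) ^ k * p ^ (k.choose 2) := by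
        have h4 : (n.choose k : ℝ) ≤ (n : ℝ) ^ k := by exact_mod_cast Nat.choose_le_pow n k
        have h5 : (n.choose k : ℝ) * p ^ (k.choose 2) ≤ (n : ℝ) ^ k * p ^ (k.choose 2) :=
          mul_le_mul_of_nonneg_right h4 (pow_nonneg hp0.le _)
        unfold meanCl at hM1
        linarith
      have h4 := Real.log_le_log (by norm_num) h3
      rw [Real.log_mul (pow_pos hn0 k).ne' (pow_pos hp0 _).ne', Real.log_pow, Real.log_pow] at h4
      have h5 : Real.log (1 / 4) = -(2 * Real.log 2) := by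
        rw [one_div, Real.log_inv, show (4 : ℝ) = 2 ^ 2 by norm_num, Real.log_pow]
        push_cast
        ring
      rw [h5] at h4
      exact h4
    have h3 : 2 * (k.choose 2 : ℝ) = k * ((k : ℝ) - 1) := by
      have h4 := two_choose k
      have h5 : ((k - 1 : ℕ) : ℝ) = (k : ℝ) - 1 := by
        rw [Nat.cast_sub (by omega)]
        norm_num
      rw [← h5]
      exact_mod_cast h4
    have hk3 : (3 : ℝ) ≤ k := by exact_mod_cast hk
    have hk1 : (0 : ℝ) < (k : ℝ) - 1 := by linarith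
    rw [h1, div_mul_eq_mul_div, le_div_iff₀ hk1]
    -- (log 2 - log p) (k - 1) <= 3 log n
    have h4 : -(4 * Real.log 2) ≤ 2 * k * Real.log n + (k * ((k : ℝ) - 1)) * Real.log p := by
      rw [← h3]
      linarith
    have h5 : k * (((k : ℝ) - 1) * -Real.log p) ≤ k * (2 * Real.log n) + 4 * Real.log 2 := by
      linarith
    have h6 : ((k : ℝ) - 1) * -Real.log p ≤ 2 * Real.log n + 2 * Real.log 2 := by
      have h7 : k * (((k : ℝ) - 1) * -Real.log p) ≤ k * (2 * Real.log n + 2 * Real.log 2) := by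
        nlinarith
      exact le_of_mul_le_mul_left h7 hk0
    nlinarith

end Pool.Agent.T9h84.QL
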